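import Pool.Agent.Q139.Net.Final

/-!
Uniform rep-cubes exist for all edge nets of the unit cube.
-/

open Q139.Net

namespace Pool.Agent.Results.MP_0163eb_co.UniformRepCubes

/-- Q1 answered YES. The eleven listed hexominoes are edge nets, every edge net is congruent to one
of them, and every edge net `N` has a uniform rep-cube. -/
theorem result :
    edgeNets.length = 11 ∧ (∀ N ∈ edgeNets, IsEdgeNet N) ∧
    (∀ N, IsEdgeNet N → ∃ M ∈ edgeNets, Congruent M N) ∧
    ∀ N, IsEdgeNet N → ∃ k P, IsUniformRepCube N k P :=
  ⟨rfl, edgeNets_isEdgeNet, fun _ h => classification h, fun _ h => main h⟩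

end Pool.Agent.Results.MP_0163eb_co.UniformRepCubes
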